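import Pool.Agent.T2h10.WV.Core

/-!
# A primitive ideal of `U(W)` and of `U(Vir)` which is not the kernel of a map to any `Ã_k`

This answers question Q2 of the problem in the negative, over every field `F` of characteristic zero.
The ideal is not a trivial one: for `W` it is nonzero, and for `Vir` it contains `z` and is larger
than the ideal generated by `z`.

Idea (see `Pool/Agent/T2h10/WV`).  Let `W` act by
`t^a ∂ ↦ X a = s^a ∂_s + λ a s^(a-1) + t^a ∂_t + μ a t^(a-1)` with `λ = 2`, `μ = 1 - λ = -1`; let `B` be the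
algebra generated by the operators `X a`, and `δ = s - t`.
* Combining products of two `X a` one gets, for symmetric `E` divisible by `δ^4`, the operators
  `E ∂_s ∂_t + …`; combining their products with `X 4, …, X 0` (a divided difference of order two) one gets
  first order operators `g ∂_s + g ∂_t + …` with symmetric `g`, as `λ (1 - λ) = μ (1 - μ)`; commutators with
  `X a` give `g s^n ∂_s + g t^n ∂_t + …`; finally the commutators of these and `λ ≠ μ` give all
  multiplications with multiples of `δ^22` (Laurent polynomials in `s`, `t`).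
* The module of delta functions at the point `(s, t) = (1, 2)` is simple over `B` (`δ` is invertible on it).
  Let `Q` be its annihilator.
* An embedding `B → Ã_k` would give an injective linear map `Y` from the Laurent polynomials in `s`, `t` to
  `Ã_k` with `Y p * Y q = Y 1 * Y (p q)`.  For a locally nilpotent derivation all nonzero values of `Y`
  have the same degree (powers give `≥`, units give `=`, sums of units give `≤`), so one can replace `Y`
  by a derivative and assume that its values commute with `t`, with the `s_i` and with the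
  `∂_i`.  Then the values are Laurent polynomials in `t`, and a dimension count gives a contradiction.
-/

set_option autoImplicit false

namespace Pool.Agent.Results.MP_4da284_al.TwoPointIdeal

open Pool.Agent.T2h10.WV

/-- `L` is the Witt algebra `W`: it has a basis `e_n`, `n ∈ ℤ`, with
`[e_m, e_n] = (n - m) e_{m + n}` (so `e_n = t^(n+1) ∂`). -/
def IsWitt (F : Type) [Field F] (L : Type) [LieRing L] [LieAlgebra F L] : Prop :=
  ∃ e : Module.Basis ℤ F L, ∀ m n : ℤ, ⁅e m, e n⁆ = ((n - m : ℤ) : F) • e (m + n)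

/-- `L` is the Virasoro algebra `Vir` with central element `z`: it has a basis consisting of
`e_n = e (some n)`, `n ∈ ℤ`, and `z = e none`, with `z` central and
`[e_m, e_n] = (n - m) e_{m + n} + δ_{m + n, 0} (m ^ 3 - m) / 12 z`. -/
def IsVirasoro (F : Type) [Field F] (L : Type) [LieRing L] [LieAlgebra F L] (z : L) : Prop :=
  ∃ e : Module.Basis (Option ℤ) F L, e none = z ∧ (∀ x : L, ⁅z, x⁆ = 0) ∧
    ∀ m n : ℤ, ⁅e (some m), e (some n)⁆ = ((n - m : ℤ) : F) • e (some (m + n)) +
      (if m + n = 0 then (((m : F) ^ 3 - (m : F)) / 12) • z else 0)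

/-- A two-sided ideal is primitive if it is the annihilator of a simple left module. -/
def IsPrimitive {U : Type} [Ring U] (P : TwoSidedIdeal U) : Prop :=
  ∃ (M : Type) (_ : AddCommGroup M) (_ : Module U M), IsSimpleModule U M ∧
    ∀ a : U, a ∈ P ↔ ∀ x : M, a • x = 0

/-- The ring `F[t, t⁻¹, s_1, …, s_m]`: the monoid algebra of the monoid of exponents `(a, α)` of the
monomials `t^a s^α`, `a ∈ ℤ`, `α ∈ ℕ^m`. -/
abbrev LPoly (F : Type) [Field F] (m : ℕ) : Type := AddMonoidAlgebra F (ℤ × (Fin m →₀ ℕ))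

/-- The monomial `t^a s^α`. -/
noncomputable def mon (F : Type) [Field F] (m : ℕ) (a : ℤ) (α : Fin m →₀ ℕ) : LPoly F m :=
  AddMonoidAlgebra.single (a, α) 1

/-- The partial derivative `∂_t`, with `∂_t (t^a s^α) = a t^(a-1) s^α`. -/
noncomputable def dt (F : Type) [Field F] (m : ℕ) : LPoly F m →ₗ[F] LPoly F m :=
  (AddMonoidAlgebra.basis (ℤ × (Fin m →₀ ℕ)) F).constr F
    (fun g => (g.1 : F) • mon F m (g.1 - 1) g.2)

/-- The partial derivative `∂_i` with respect to `s_i`, with `∂_i (t^a s^α) = α_i t^a s^(α - ε_i)`. -/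
noncomputable def ds (F : Type) [Field F] (m : ℕ) (i : Fin m) : LPoly F m →ₗ[F] LPoly F m :=
  (AddMonoidAlgebra.basis (ℤ × (Fin m →₀ ℕ)) F).constr F
    (fun g => (g.2 i : F) • mon F m g.1 (g.2 - Finsupp.single i 1))

/-- The algebra `Ã_k = F[t, t⁻¹, ∂] ⊗ A_{k-1}` with `k = m + 1`, over a field `F` of characteristic zero: the
algebra of operators on `F[t, t⁻¹, s_1, …, s_m]` generated by the multiplications by `t`, `t⁻¹` and the `s_i`
and by the partial derivatives `∂_t` and `∂_i`. -/
noncomputable def LocWeyl (F : Type) [Field F] (m : ℕ) : Subalgebra F (Module.End F (LPoly F m)) :=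
  Algebra.adjoin F
    ({LinearMap.mulLeft F (mon F m 1 0), LinearMap.mulLeft F (mon F m (-1) 0), dt F m} ∪
      Set.range (fun i => LinearMap.mulLeft F (mon F m 0 (Finsupp.single i 1))) ∪
      Set.range (fun i => ds F m i))

lemma dt_eq (F : Type) [Field F] (m : ℕ) : dt F m = pt F m := by
  apply (AddMonoidAlgebra.basis (ℤ × (Fin m →₀ ℕ)) F).ext
  intro g
  rw [dt, Module.Basis.constr_basis, AddMonoidAlgebra.basis_apply, pt, lop_single, mon,
    AddMonoidAlgebra.smul_single']

lemma ds_eq (F : Type) [Field F] (m : ℕ) (i : Fin m) : ds F m i = ps F m i := by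
  apply (AddMonoidAlgebra.basis (ℤ × (Fin m →₀ ℕ)) F).ext
  intro g
  rw [ds, Module.Basis.constr_basis, AddMonoidAlgebra.basis_apply, ps, lop_single, mon,
    AddMonoidAlgebra.smul_single']

lemma locWeyl_eq (F : Type) [Field F] (m : ℕ) : LocWeyl F m = LW F m := by
  unfold LocWeyl LW
  rw [dt_eq]
  have h : (fun i => ds F m i) = fun i => ps F m i := by funext i; exact ds_eq F m i
  rw [h]
  rfl

section
attribute [local instance 100] LieRing.ofAssociativeRing

variable {F : Type} [Field F] [CharZero F] {L : Type} [LieRing L] [LieAlgebra F L]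

lemma core {I : Type} (b : Module.Basis I F L)
    (f : L →ₗ[F] Module.End F (DM F))
    (hf : ∀ i j, f ⁅b i, b j⁆ = f (b i) * f (b j) - f (b j) * f (b i))
    (hX : ∀ a : ℤ, ∃ x, f x = X (DD F) 2 a) :
    ∃ Th : UniversalEnvelopingAlgebra F L →ₐ[F] Module.End F (DM F),
      (∀ x, Th (UniversalEnvelopingAlgebra.ι F x) = f x) ∧
      IsPrimitive (TwoSidedIdeal.ker Th) ∧
      ∀ (m : ℕ) (φ : UniversalEnvelopingAlgebra F L →ₐ[F] LocWeyl F m),
        ¬ ∀ a, a ∈ TwoSidedIdeal.ker Th ↔ φ a = 0 := by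
  obtain ⟨Th, hTh⟩ := exists_Th b f hf
  have h2 : (2 : F) ≠ 0 := two_ne_zero
  have h3 : (2 : F) ≠ 1 := by norm_num
  have h4 : (2 : F) - (1 - 2) ≠ 0 := by norm_num
  have hX' : ∀ a : ℤ, ∃ u, Th u = X (DD F) 2 a := by
    intro a
    obtain ⟨x, hx⟩ := hX a
    exact ⟨UniversalEnvelopingAlgebra.ι F x, by rw [hTh, hx]⟩
  refine ⟨Th, hTh, ?_, ?_⟩
  · obtain ⟨M, i1, i2, hs, hM⟩ := core_simple (F := F) 2 h2 h3 h4 Th hX'
    refine ⟨M, i1, i2, hs, ?_⟩
    intro a
    rw [TwoSidedIdeal.mem_ker]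
    exact hM a
  · intro m
    rw [locWeyl_eq]
    intro φ hφ
    exact core_no (F := F) 2 h2 h3 h4 Th hX' m φ (fun a => by
      rw [← hφ a, TwoSidedIdeal.mem_ker])

lemma witt (hL : IsWitt F L) :
    ∃ Q : TwoSidedIdeal (UniversalEnvelopingAlgebra F L), IsPrimitive Q ∧ Q ≠ ⊥ ∧
      ∀ (m : ℕ) (φ : UniversalEnvelopingAlgebra F L →ₐ[F] LocWeyl F m),
        ¬ ∀ a, a ∈ Q ↔ φ a = 0 := by
  obtain ⟨e, he⟩ := hL
  let f : L →ₗ[F] Module.End F (DM F) := e.constr F (fun n => X (DD F) 2 (n + 1))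
  have hfe : ∀ n, f (e n) = X (DD F) 2 (n + 1) := fun n => Module.Basis.constr_basis _ _ _ _
  obtain ⟨Th, hTh, h1, h2⟩ := core e f (by
    intro m n
    rw [he, map_smul, hfe, hfe, hfe, X_comm (DD F) 2 rfl rfl]
    congr 1
    · congr 1; ring
    · congr 1; ring) (fun a => ⟨e (a - 1), by rw [hfe, sub_add_cancel]⟩)
  refine ⟨_, h1, ?_, h2⟩
  obtain ⟨β, hβ⟩ := Pool.Agent.R693.PBW.exists_basis F L ℤ e
  obtain ⟨u, hu, hu0, -⟩ := exists_u e (fun m : ℕ => (m : ℤ) - 1)
    (fun m n hmn => by
      change (m : ℤ) - 1 < (n : ℤ) - 1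
      omega)
    (fun m n j hmn => by
      beta_reduce
      rw [he]
      congr 2
      · ring
      · omega) Th (fun m => by
      rw [hTh, hfe, sub_add_cancel]
      exact X_weyl 2 m) β hβ
  intro h
  apply hu0
  have h3 : u ∈ TwoSidedIdeal.ker Th := by rw [TwoSidedIdeal.mem_ker]; exact hu
  rw [h, TwoSidedIdeal.mem_bot] at h3
  exact h3

lemma virasoro (z : L) (hL : IsVirasoro F L z) :
    ∃ Q : TwoSidedIdeal (UniversalEnvelopingAlgebra F L), IsPrimitive Q ∧
      UniversalEnvelopingAlgebra.ι F z ∈ Q ∧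
      (∃ u ∈ Q, ∀ a, u ≠ UniversalEnvelopingAlgebra.ι F z * a) ∧
      ∀ (m : ℕ) (φ : UniversalEnvelopingAlgebra F L →ₐ[F] LocWeyl F m),
        ¬ ∀ a, a ∈ Q ↔ φ a = 0 := by
  obtain ⟨e, hez, hz, he⟩ := hL
  let f : L →ₗ[F] Module.End F (DM F) :=
    e.constr F (fun i => i.elim 0 (fun n => X (DD F) 2 (n + 1)))
  have hfn : ∀ n, f (e (some n)) = X (DD F) 2 (n + 1) := fun n => Module.Basis.constr_basis _ _ _ _
  have hfz : f z = 0 := by
    rw [← hez]
    exact Module.Basis.constr_basis _ _ _ _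
  obtain ⟨Th, hTh, h1, h2⟩ := core e f (by
    intro i j
    rcases i with _ | m
    · rw [hez, hz, hfz, map_zero, zero_mul, mul_zero, sub_zero]
    · rcases j with _ | n
      · rw [hez, ← lie_skew, hz, hfz, neg_zero, map_zero, zero_mul, mul_zero, sub_zero]
      · rw [he, map_add, map_smul, hfn, hfn, hfn, X_comm (DD F) 2 rfl rfl]
        have h0 : f (if m + n = 0 then (((m : F) ^ 3 - (m : F)) / 12) • z else 0) = 0 := by
          split_ifs
          · rw [map_smul, hfz, smul_zero]
          · rw [map_zero]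
        rw [h0, add_zero]
        congr 1
        · congr 1; ring
        · congr 1; ring) (fun a => ⟨e (some (a - 1)), by rw [hfn, sub_add_cancel]⟩)
  refine ⟨_, h1, ?_, ?_, h2⟩
  · rw [TwoSidedIdeal.mem_ker, hTh, hfz]
  let eqv : Option ℤ ≃ WithBot ℤ := Equiv.refl _
  let c : Module.Basis (WithBot ℤ) F L := e.reindex eqv
  have hc0 : c ⊥ = z := by
    rw [← hez]
    exact Module.Basis.reindex_apply _ _ _
  have hcn : ∀ n : ℤ, c (n : WithBot ℤ) = e (some n) := fun n => Module.Basis.reindex_apply _ _ _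
  obtain ⟨β, hβ⟩ := Pool.Agent.R693.PBW.exists_basis F L (WithBot ℤ) c
  obtain ⟨u, hu, hu0, hu'⟩ := exists_u c (fun m : ℕ => (((m : ℤ) - 1 : ℤ) : WithBot ℤ))
    (fun m n hmn => by
      rw [WithBot.coe_lt_coe]
      omega)
    (fun m n j hmn => by
      rw [hcn, hcn, hcn, he]
      have h0 : (if (m : ℤ) - 1 + ((n : ℤ) - 1) = 0 then
          ((((((m : ℤ) - 1 : ℤ)) : F) ^ 3 - ((((m : ℤ) - 1 : ℤ)) : F)) / 12) • z else 0) = 0 := by
        split_ifs with h
        · have h3 : m = 0 ∨ m = 1 ∨ m = 2 := by omega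
          have h4 : ((((m : ℤ) - 1 : ℤ)) : F) ^ 3 - ((((m : ℤ) - 1 : ℤ)) : F) = 0 := by
            rcases h3 with rfl | rfl | rfl <;> norm_num
          rw [h4, zero_div, zero_smul]
        · rfl
      rw [h0, add_zero]
      congr 2
      · ring
      · congr 1
        omega) Th (fun m => by
      rw [hTh, hcn, hfn, sub_add_cancel]
      exact X_weyl 2 m) β hβ
  refine ⟨u, by rw [TwoSidedIdeal.mem_ker]; exact hu, ?_⟩
  intro a ha
  have h3 : u ∈ Submodule.span F (β '' {l | ⊥ ∈ l.1}) := by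
    rw [ha]
    have hmem : a ∈ Submodule.span F (Set.range β) := by rw [β.span_eq]; trivial
    clear ha
    induction hmem using Submodule.span_induction with
    | mem x hx =>
      obtain ⟨l, rfl⟩ := hx
      have hs : (⊥ :: l.1).Pairwise (· ≤ ·) :=
        List.pairwise_cons.2 ⟨fun i _ => bot_le, l.2⟩
      apply Submodule.subset_span
      refine ⟨⟨⊥ :: l.1, hs⟩, List.mem_cons_self, ?_⟩
      rw [hβ, hβ, List.map_cons, List.prod_cons, hc0]
    | zero => rw [mul_zero]; exact zero_mem _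
    | add x y _ _ hx hy => rw [mul_add]; exact add_mem hx hy
    | smul r x _ hx => rw [mul_smul_comm]; exact Submodule.smul_mem _ _ hx
  have hd : Disjoint {l : {l : List (WithBot ℤ) // l.Pairwise (· ≤ ·)} | ⊥ ∈ l.1}
      {l | ∀ i ∈ l.1, i ∈ Set.range (fun m : ℕ => (((m : ℤ) - 1 : ℤ) : WithBot ℤ))} := by
    rw [Set.disjoint_left]
    intro l hl hl'
    obtain ⟨m, hm⟩ := hl' _ hl
    exact WithBot.coe_ne_bot hm
  have h4 := β.linearIndependent.disjoint_span_image hd
  rw [Submodule.disjoint_def] at h4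
  exact hu0 (h4 u h3 hu')

end

/-- Question Q2 has a negative answer, over every field of characteristic zero.
* If `L` is the Witt algebra `W`, there is a nonzero primitive ideal of `U(L)` which is not the
  kernel of any algebra map from `U(L)` to any `Ã_k`, `k = m + 1 ≥ 1`.
* If `L` is the Virasoro algebra `Vir` with central element `z`, there is a primitive ideal of `U(L)` which
  contains `z`, is not generated by `z`, and is not the kernel of any algebra map from `U(L)` to any `Ã_k`. -/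
theorem result (F : Type) [Field F] [CharZero F] (L : Type) [LieRing L] [LieAlgebra F L] :
    (IsWitt F L → ∃ Q : TwoSidedIdeal (UniversalEnvelopingAlgebra F L), IsPrimitive Q ∧ Q ≠ ⊥ ∧
      ∀ (m : ℕ) (φ : UniversalEnvelopingAlgebra F L →ₐ[F] LocWeyl F m),
        ¬ ∀ a, a ∈ Q ↔ φ a = 0) ∧
    ∀ z : L, IsVirasoro F L z → ∃ Q : TwoSidedIdeal (UniversalEnvelopingAlgebra F L),
      IsPrimitive Q ∧ UniversalEnvelopingAlgebra.ι F z ∈ Q ∧
      (∃ u ∈ Q, ∀ a, u ≠ UniversalEnvelopingAlgebra.ι F z * a) ∧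
      ∀ (m : ℕ) (φ : UniversalEnvelopingAlgebra F L →ₐ[F] LocWeyl F m),
        ¬ ∀ a, a ∈ Q ↔ φ a = 0 :=
  ⟨witt, virasoro⟩

end Pool.Agent.Results.MP_4da284_al.TwoPointIdeal
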